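import Mathlib

/-!
# A `σ̃`-4-perfect number

`n = 2^13 · 3^8 · 5 · 7^2 · 11 · 13 · 19 · 23 · 37 · 43^2 · 127 · 139` satisfies `4 σ̃(n) = n`.
-/

set_option autoImplicit false

namespace Pool.Agent.Results.MP_62401a_nt.FourPerfect

open Finset

/-- `σ̃(p ^ r) = p ^ r - p ^ (r - 1) + ⋯ + (-1) ^ r` -/
def altPow (p r : ℕ) : ℤ := ∑ j ∈ range (r + 1), (-1) ^ j * (p : ℤ) ^ (r - j)

/-- `σ̃(n)`, the product of the `σ̃(p ^ r)` over the prime powers `p ^ r` exactly dividing `n` -/
noncomputable def altSigma (n : ℕ) : ℤ := n.factorization.prod altPow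

theorem altSigma_mul {m n : ℕ} (h : Nat.Coprime m n) :
    altSigma (m * n) = altSigma m * altSigma n := by
  unfold altSigma
  rw [Nat.factorization_mul_of_coprime h]
  exact Finsupp.prod_add_index_of_disjoint h.disjoint_primeFactors _

theorem altSigma_pow {p r : ℕ} (hp : p.Prime) : altSigma (p ^ r) = altPow p r := by
  unfold altSigma
  rw [Nat.Prime.factorization_pow hp, Finsupp.prod_single_index]
  unfold altPow
  simp

theorem step {p r m : ℕ} {a b : ℤ} (hp : p.Prime) (hc : ¬ p ∣ m) (hm : altSigma m = b)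
    (ha : altPow p r = a) : altSigma (p ^ r * m) = a * b := by
  rw [altSigma_mul (((Nat.Prime.coprime_iff_not_dvd hp).2 hc).pow_left r), altSigma_pow hp, ha, hm]

theorem result : ∃ k : ℕ, 4 ≤ k ∧ ∃ n : ℕ, 0 < n ∧ (k : ℤ) * altSigma n = n := by
  refine ⟨4, le_rfl, 2 ^ 13 * (3 ^ 8 * (5 ^ 1 * (7 ^ 2 * (11 ^ 1 * (13 ^ 1 * (19 ^ 1 * (23 ^ 1 *
    (37 ^ 1 * (43 ^ 2 * (127 ^ 1 * (139 ^ 1 * 1))))))))))), by norm_num, ?_⟩
  have h0 : altSigma 1 = 1 := by
    unfold altSigma
    simp
  have h1 := step (p := 139) (r := 1) (a := 138) (by norm_num) (by norm_num) h0 (by decide)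
  have h2 := step (p := 127) (r := 1) (a := 126) (by norm_num) (by norm_num) h1 (by decide)
  have h3 := step (p := 43) (r := 2) (a := 1807) (by norm_num) (by norm_num) h2 (by decide)
  have h4 := step (p := 37) (r := 1) (a := 36) (by norm_num) (by norm_num) h3 (by decide)
  have h5 := step (p := 23) (r := 1) (a := 22) (by norm_num) (by norm_num) h4 (by decide)
  have h6 := step (p := 19) (r := 1) (a := 18) (by norm_num) (by norm_num) h5 (by decide)
  have h7 := step (p := 13) (r := 1) (a := 12) (by norm_num) (by norm_num) h6 (by decide)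
  have h8 := step (p := 11) (r := 1) (a := 10) (by norm_num) (by norm_num) h7 (by decide)
  have h9 := step (p := 7) (r := 2) (a := 43) (by norm_num) (by norm_num) h8 (by decide)
  have h10 := step (p := 5) (r := 1) (a := 4) (by norm_num) (by norm_num) h9 (by decide)
  have h11 := step (p := 3) (r := 8) (a := 4921) (by norm_num) (by norm_num) h10 (by decide)
  have h12 := step (p := 2) (r := 13) (a := 5461) (by norm_num) (by norm_num) h11 (by decide)
  rw [h12]
  norm_num

end Pool.Agent.Results.MP_62401a_nt.FourPerfect
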